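import Mathlib

set_option autoImplicit false
open MeasureTheory Metric Set

noncomputable section
namespace POH4

/-- averaging over the target: the set of targets `y` which see more than `δ` of the mass
`g T` of the points `v T` at distance `< η` has area at most `π η² (∑ g) / δ`. -/
theorem AVG (ι : Finset ℕ) (v : ℕ → ℂ) (g : ℕ → ℝ) (hg : ∀ T ∈ ι, 0 ≤ g T)
    (C1 η δ : ℝ) (hC : ∑ T ∈ ι, g T ≤ C1) (hη : 0 < η) (hδ : 0 < δ) :
    volume {y : ℂ | δ ≤ ∑ T ∈ ι.filter (fun T => ‖v T - y‖ < η), g T}
      ≤ ENNReal.ofReal (Real.pi * η ^ 2 * C1 / δ) := by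
  classical
  set F : ℂ → ENNReal := fun y => ∑ T ∈ ι, (ball (v T) η).indicator (fun _ => ENNReal.ofReal (g T)) y
    with hF
  have hmeas : Measurable F := by
    refine Finset.measurable_sum _ ?_
    intro T _
    exact (measurable_const).indicator measurableSet_ball
  have hFval : ∀ y : ℂ, F y = ENNReal.ofReal (∑ T ∈ ι.filter (fun T => ‖v T - y‖ < η), g T) := by
    intro y
    rw [ENNReal.ofReal_sum_of_nonneg (fun T hT => hg T (Finset.mem_filter.mp hT).1)]
    rw [hF]
    simp only
    rw [Finset.sum_filter]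
    refine Finset.sum_congr rfl ?_
    intro T _
    by_cases h : ‖v T - y‖ < η
    · have : y ∈ ball (v T) η := by
        rw [mem_ball, dist_comm, dist_eq_norm]; exact h
      rw [indicator_of_mem this, if_pos h]
    · have : y ∉ ball (v T) η := by
        rw [mem_ball, dist_comm, dist_eq_norm]; exact h
      rw [indicator_of_notMem this, if_neg h]
  have hint : ∫⁻ y, F y = ENNReal.ofReal (Real.pi * η ^ 2 * ∑ T ∈ ι, g T) := by
    rw [hF]
    rw [lintegral_finset_sum]
    · have : ∀ T ∈ ι, (∫⁻ y, (ball (v T) η).indicator (fun _ => ENNReal.ofReal (g T)) y)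
          = ENNReal.ofReal (Real.pi * η ^ 2 * g T) := by
        intro T hT
        rw [lintegral_indicator measurableSet_ball, setLIntegral_const, Complex.volume_ball]
        rw [ENNReal.ofReal_mul (by positivity), ENNReal.ofReal_mul (by positivity),
          ENNReal.ofReal_pow hη.le]
        rw [mul_comm (ENNReal.ofReal (g T))]
        congr 1
        rw [mul_comm]
        congr 1
        rw [← NNReal.coe_real_pi, ENNReal.ofReal_coe_nnreal]
      rw [Finset.sum_congr rfl this, ← ENNReal.ofReal_sum_of_nonneg]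
      · rw [Finset.mul_sum]
      · intro T hT
        exact mul_nonneg (by positivity) (hg T hT)
    · intro T _
      exact (measurable_const).indicator measurableSet_ball
  have hmk : ENNReal.ofReal δ * volume {y | ENNReal.ofReal δ ≤ F y} ≤ ∫⁻ y, F y :=
    mul_meas_ge_le_lintegral hmeas _
  have hsub : {y : ℂ | δ ≤ ∑ T ∈ ι.filter (fun T => ‖v T - y‖ < η), g T}
      ⊆ {y | ENNReal.ofReal δ ≤ F y} := by
    intro y hy
    rw [mem_setOf_eq, hFval y]
    exact ENNReal.ofReal_le_ofReal hy
  have hd : ENNReal.ofReal δ ≠ 0 := by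
    rw [Ne, ENNReal.ofReal_eq_zero, not_le]; exact hδ
  calc volume {y : ℂ | δ ≤ ∑ T ∈ ι.filter (fun T => ‖v T - y‖ < η), g T}
      ≤ volume {y | ENNReal.ofReal δ ≤ F y} := measure_mono hsub
    _ ≤ (∫⁻ y, F y) / ENNReal.ofReal δ := by
        rw [ENNReal.le_div_iff_mul_le (Or.inl hd) (Or.inl ENNReal.ofReal_ne_top), mul_comm]
        exact hmk
    _ = ENNReal.ofReal (Real.pi * η ^ 2 * (∑ T ∈ ι, g T) / δ) := by
        rw [hint, ENNReal.ofReal_div_of_pos hδ]
    _ ≤ ENNReal.ofReal (Real.pi * η ^ 2 * C1 / δ) := by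
        apply ENNReal.ofReal_le_ofReal
        gcongr

end POH4
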